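import Mathlib
import Pool.Agent.Q210.RS.Prob

namespace Pool.Agent.Results.MP_3b082f_pr.CompactMeanFails

open MeasureTheory Set Filter Topology ProbabilityTheory
open scoped Pointwise BoundedContinuousFunction RealInnerProductSpace
open Pool.Agent.Q210.RS (IsBC R)

/-- `X` is B-convex: for some `n` and `ε > 0` there is no `(1 + ε)`-isomorphic copy of `ℓ_1^n`
in `X`. -/
def IsBConvex (X : Type*) [NormedAddCommGroup X] [NormedSpace ℝ X] : Prop :=
  ∃ (n : ℕ) (ε : ℝ), 0 < ε ∧ ¬ ∃ T : (Fin n → ℝ) →ₗ[ℝ] X,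
    ∀ a, ∑ i, |a i| ≤ ‖T a‖ ∧ ‖T a‖ ≤ (1 + ε) * ∑ i, |a i|

/-- `Ψ` is a random set: its values are in `BC(X)` and `R ∘ Ψ` is strongly measurable. -/
def IsRandomSet {X : Type*} [NormedAddCommGroup X] [NormedSpace ℝ X] {Ω : Type*}
    [MeasurableSpace Ω] (Ψ : Ω → Set X) : Prop :=
  (∀ ω, IsBC (Ψ ω)) ∧ StronglyMeasurable (fun ω => R (Ψ ω))

/-- `E(Ψ) = U`: `R ∘ Ψ` is Bochner integrable with integral `R(U)`. -/
def HasExpectation {X : Type*} [NormedAddCommGroup X] [NormedSpace ℝ X] {Ω : Type*}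
    [MeasurableSpace Ω] (μ : Measure Ω) (Ψ : Ω → Set X) (U : Set X) : Prop :=
  IsBC U ∧ Integrable (fun ω => R (Ψ ω)) μ ∧ ∫ ω, R (Ψ ω) ∂μ = R U

/-- The random sets `Ψ 0, Ψ 1, ...` are independent: so are the random vectors `R ∘ Ψ n`. -/
def IndepSets {X : Type*} [NormedAddCommGroup X] [NormedSpace ℝ X] {Ω : Type*}
    [MeasurableSpace Ω] (μ : Measure Ω) (Ψ : ℕ → Ω → Set X) : Prop :=
  iIndepFun (m := fun _ => borel (Metric.sphere (0 : StrongDual ℝ X) 1 →ᵇ ℝ))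
    (fun n ω => R (Ψ n ω)) μ

/-- A Hilbert space is B-convex. -/
lemma hilbert_bconvex (X : Type*) [NormedAddCommGroup X] [InnerProductSpace ℝ X] :
    IsBConvex X := by
  refine ⟨2, 1 / 4, by norm_num, ?_⟩
  rintro ⟨T, hT⟩
  have h1 := hT ![1, 1]
  have h2 := hT ![1, -1]
  have h3 := hT ![1, 0]
  have h4 := hT ![0, 1]
  have e1 : T ![1, 1] = T ![1, 0] + T ![0, 1] := by
    rw [← map_add]; congr 1; ext i; fin_cases i <;> simp
  have e2 : T ![1, -1] = T ![1, 0] - T ![0, 1] := by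
    rw [← map_sub]; congr 1; ext i; fin_cases i <;> simp
  rw [e1] at h1
  rw [e2] at h2
  simp only [Fin.sum_univ_two, Matrix.cons_val_zero, Matrix.cons_val_one, abs_one, abs_neg,
    abs_zero] at h1 h2 h3 h4
  have hp := parallelogram_law_with_norm ℝ (T ![1, 0]) (T ![0, 1])
  have n1 := norm_nonneg (T ![1, 0])
  have n2 := norm_nonneg (T ![0, 1])
  nlinarith [h1.1, h2.1, h3.2, h4.2]

/-- In the B-convex space `ℓ₂` there is a uniformly bounded independent sequence of random sets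
with one compact common expectation `U` for which the averages do not converge to `U`, at any
point `ω`. -/
theorem result : ∃ (X : Type) (_ : NormedAddCommGroup X) (_ : NormedSpace ℝ X)
    (_ : CompleteSpace X), IsBConvex X ∧
    ∃ (Ω : Type) (_ : MeasurableSpace Ω) (μ : Measure Ω) (_ : IsProbabilityMeasure μ)
      (Ψ : ℕ → Ω → Set X) (U : Set X),
      (∀ n, IsRandomSet (Ψ n)) ∧ (∃ C : ℝ, ∀ n ω, ∀ x ∈ Ψ n ω, ‖x‖ ≤ C) ∧
      IndepSets μ Ψ ∧ (∀ n, HasExpectation μ (Ψ n) U) ∧ IsCompact U ∧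
      ∀ ω, ¬ Tendsto (fun n : ℕ => Metric.hausdorffDist
        ((n : ℝ)⁻¹ • ∑ i ∈ Finset.range n, Ψ i ω) U) atTop (𝓝 0) := by
  have he := Pool.Agent.Q210.RS.basisH.orthonormal
  refine ⟨Pool.Agent.Q210.RS.H, inferInstance, inferInstance, inferInstance,
    hilbert_bconvex _, ∀ i, Fin (Pool.Agent.Q210.RS.qq 3 i), inferInstance,
    Pool.Agent.Q210.RS.PP 3, inferInstance,
    Pool.Agent.Q210.RS.Psi (Pool.Agent.Q210.RS.basisH) 3,
    Pool.Agent.Q210.RS.UU (Pool.Agent.Q210.RS.basisH) 3, ?_, ?_, ?_, ?_, ?_, ?_⟩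
  · intro n
    exact ⟨fun ω => (Pool.Agent.Q210.RS.Psi_isBC he 3 n ω).1,
      Pool.Agent.Q210.RS.Psi_sm he 3 n⟩
  · exact ⟨_, fun n ω => (Pool.Agent.Q210.RS.Psi_isBC he 3 n ω).2⟩
  · exact Pool.Agent.Q210.RS.Psi_indep he 3
  · intro n
    exact ⟨(Pool.Agent.Q210.RS.UU_isBC he 3).1, Pool.Agent.Q210.RS.Psi_integrable he 3 n,
      Pool.Agent.Q210.RS.Psi_exp he 3 n⟩
  · exact Pool.Agent.Q210.RS.UU_compact he 3
  · intro ω hlim
    obtain ⟨N, hN⟩ := eventually_atTop.mp (hlim.eventually (gt_mem_nhds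
      (show (0 : ℝ) < 1 / 8 by norm_num)))
    have hNk : N ≤ 2 ^ (N + 1) - 1 := by
      have : N + 1 < 2 ^ (N + 1) := Nat.lt_two_pow_self
      omega
    have h1 := hN _ hNk
    obtain ⟨x, hx, hx4⟩ := Pool.Agent.Q210.RS.big he 3 N ω
    have hU := Pool.Agent.Q210.RS.UU_isBC he 3
    have hA : IsBC ((((2 ^ (N + 1) - 1 : ℕ) : ℝ)⁻¹) • ∑ i ∈ Finset.range (2 ^ (N + 1) - 1),
        Pool.Agent.Q210.RS.Psi (Pool.Agent.Q210.RS.basisH) 3 i ω) :=
      (IsBC.sum _ (fun i _ => (Pool.Agent.Q210.RS.Psi_isBC he 3 i ω).1)).smul _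
    have h2 := Metric.infDist_le_hausdorffDist_of_mem hx
      (Metric.hausdorffEDist_ne_top_of_nonempty_of_bounded hA.nonempty hU.1.nonempty hA.bounded
        hU.1.bounded)
    have h3 : 1 / 8 ≤ Metric.infDist x
        (Pool.Agent.Q210.RS.UU (Pool.Agent.Q210.RS.basisH) 3) := by
      rw [Metric.le_infDist hU.1.nonempty]
      intro u hu
      rw [dist_eq_norm]
      have h4 := norm_sub_norm_le x u
      have h5 := hU.2 u hu
      have h6 : ((1 : ℝ) / 2) ^ 3 = 1 / 8 := by norm_num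
      linarith
    linarith

end Pool.Agent.Results.MP_3b082f_pr.CompactMeanFails
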